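import Mathlib

/-!
# Optimal colourings of `K_n` without a rainbow cycle of length `n - 2`

The vertices are the elements of `(Z/2)^k` and the edge `xy` has the colour `x + y`. The colours of
the edges of a cycle add up to zero, and so do all nonzero elements of `(Z/2)^k`. A rainbow cycle
with `2^k - 2` edges misses exactly one nonzero element, so its colours do not add up to zero.
-/

set_option autoImplicit false

namespace Pool.Agent.Results.MP_4bc86c_co.BinaryColouring

open Finset

/-- A colouring of the edges of the complete graph on `V` is proper if any two edges which share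
a vertex have different colours. -/
def IsProper {V K : Type} (c : Sym2 V → K) : Prop :=
  ∀ x y z : V, x ≠ y → x ≠ z → y ≠ z → c s(x, y) ≠ c s(x, z)

/-- The set of colours of the edges of the complete graph on `V`. -/
def colours {V K : Type} (c : Sym2 V → K) : Set K :=
  {a | ∃ x y : V, x ≠ y ∧ c s(x, y) = a}

/-- A proper edge colouring of the complete graph on `V` is optimal if no proper edge colouring
uses fewer colours. -/
def IsOptimal {V K : Type} (c : Sym2 V → K) : Prop :=
  IsProper c ∧ ∀ (K' : Type) (c' : Sym2 V → K'), IsProper c' →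
    (colours c).ncard ≤ (colours c').ncard

/-- The complete graph on `V` has a cycle with `L` edges which have `L` different colours. -/
def HasRainbowCycle {V K : Type} (c : Sym2 V → K) (L : ℕ) : Prop :=
  ∃ (v : V) (w : (⊤ : SimpleGraph V).Walk v v),
    w.IsCycle ∧ w.length = L ∧ (w.edges.map c).Nodup

/-- The edge `xy` of the complete graph on `(Z/2)^k` has the colour `x + y`. -/
def col (k : ℕ) : Sym2 (Fin k → ZMod 2) → (Fin k → ZMod 2) :=
  Sym2.lift ⟨fun x y => x + y, fun x y => add_comm x y⟩

theorem two_zmod (a : ZMod 2) : a + a = 0 := by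
  revert a
  decide

theorem add_self {k : ℕ} (x : Fin k → ZMod 2) : x + x = 0 :=
  funext fun i => two_zmod (x i)

theorem add_eq_zero {k : ℕ} {x y : Fin k → ZMod 2} (h : x + y = 0) : x = y := by
  have : x + y + y = y := by rw [h, zero_add]
  rwa [add_assoc, add_self, add_zero] at this

theorem col_mk {k : ℕ} (x y : Fin k → ZMod 2) : col k s(x, y) = x + y := rfl

theorem sum_walk {k : ℕ} {u v : Fin k → ZMod 2} (w : (⊤ : SimpleGraph (Fin k → ZMod 2)).Walk u v) :
    (w.edges.map (col k)).sum = u + v := by
  induction w with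
  | nil => rw [SimpleGraph.Walk.edges_nil, List.map_nil, List.sum_nil, add_self]
  | cons h p ih =>
    rw [SimpleGraph.Walk.edges_cons, List.map_cons, List.sum_cons, ih, col_mk]
    rename_i a b c
    have : a + b + (b + c) = a + (b + b) + c := by abel
    rw [this, add_self, add_zero]

theorem sum_univ {k : ℕ} (hk : 2 ≤ k) : ∑ x : Fin k → ZMod 2, x = 0 := by
  ext i
  rw [Finset.sum_apply]
  obtain ⟨j, hj⟩ : ∃ j : Fin k, j ≠ i := by
    by_cases h : i = ⟨0, by omega⟩
    · refine ⟨⟨1, by omega⟩, ?_⟩
      rw [h]
      intro h'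
      simp at h'
    · exact ⟨⟨0, by omega⟩, fun h' => h h'.symm⟩
  refine sum_involution (fun x _ => x + Pi.single j 1) ?_ ?_ ?_ ?_
  · intro x _
    rw [Pi.add_apply, Pi.single_eq_of_ne (Ne.symm hj), add_zero]
    exact two_zmod _
  · intro x _ _ h
    have := congrFun h j
    rw [Pi.add_apply, Pi.single_eq_same] at this
    revert this
    generalize x j = a
    revert a
    decide
  · intro x _
    exact mem_univ _
  · intro x _
    rw [add_assoc, add_self, add_zero]

theorem sum_erase {k : ℕ} (hk : 2 ≤ k) :
    ∑ x ∈ (univ : Finset (Fin k → ZMod 2)).erase 0, x = 0 := by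
  have h := add_sum_erase univ (fun x : Fin k → ZMod 2 => x) (mem_univ 0)
  rw [zero_add, sum_univ hk] at h
  exact h

theorem card_space (k : ℕ) : Fintype.card (Fin k → ZMod 2) = 2 ^ k := by
  rw [Fintype.card_fun, ZMod.card, Fintype.card_fin]

theorem no_cycle {k : ℕ} (hk : 2 ≤ k) : ¬ HasRainbowCycle (col k) (2 ^ k - 2) := by
  rintro ⟨v, w, -, hlen, hnd⟩
  have hsum : (w.edges.map (col k)).sum = 0 := by rw [sum_walk, add_self]
  set l := w.edges.map (col k) with hl
  have hll : l.length = 2 ^ k - 2 := by
    rw [hl, List.length_map, SimpleGraph.Walk.length_edges, hlen]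
  have hne : ∀ a ∈ l, a ≠ 0 := by
    intro a ha
    rw [hl, List.mem_map] at ha
    obtain ⟨e, he, rfl⟩ := ha
    have he' := w.edges_subset_edgeSet he
    revert he'
    induction e using Sym2.ind with
    | _ x y =>
      intro he' h0
      rw [SimpleGraph.mem_edgeSet, SimpleGraph.top_adj] at he'
      exact he' (add_eq_zero h0)
  have hpow : 4 ≤ 2 ^ k := by
    calc 4 = 2 ^ 2 := rfl
      _ ≤ 2 ^ k := Nat.pow_le_pow_right (by norm_num) hk
  have hsub : l.toFinset ⊆ (univ : Finset (Fin k → ZMod 2)).erase 0 := by
    intro a ha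
    rw [List.mem_toFinset] at ha
    exact mem_erase.2 ⟨hne a ha, mem_univ _⟩
  have hS : ∑ a ∈ l.toFinset, a = 0 := by
    rw [List.sum_toFinset _ hnd, List.map_id', hsum]
  have hcard : (((univ : Finset (Fin k → ZMod 2)).erase 0) \ l.toFinset).card = 1 := by
    rw [card_sdiff_of_subset hsub, card_erase_of_mem (mem_univ _), card_univ, card_space,
      List.toFinset_card_of_nodup hnd, hll]
    omega
  obtain ⟨a, ha⟩ := card_eq_one.1 hcard
  have h1 := sum_sdiff (f := fun x : Fin k → ZMod 2 => x) hsub
  rw [ha, sum_singleton, hS, sum_erase hk, add_zero] at h1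
  have h2 : a ∈ ((univ : Finset (Fin k → ZMod 2)).erase 0) \ l.toFinset := by
    rw [ha]
    exact mem_singleton_self a
  exact (mem_erase.1 (mem_sdiff.1 h2).1).1 h1

theorem col_proper (k : ℕ) : IsProper (col k) := by
  intro x y z _ _ hyz h
  rw [col_mk, col_mk] at h
  exact hyz (add_left_cancel h)

theorem col_optimal (k : ℕ) : IsOptimal (col k) := by
  refine ⟨col_proper k, fun K' c' hc' => ?_⟩
  have h1 : colours (col k) ⊆ {a | a ≠ 0} := by
    rintro a ⟨x, y, hxy, rfl⟩ h0
    exact hxy (add_eq_zero h0)
  have hfin : (colours c').Finite := by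
    refine (Set.finite_range c').subset ?_
    rintro a ⟨x, y, -, rfl⟩
    exact ⟨_, rfl⟩
  refine (Set.ncard_le_ncard h1 (Set.toFinite _)).trans ?_
  refine Set.ncard_le_ncard_of_injOn (fun a => c' s(0, a)) ?_ ?_ hfin
  · intro a ha
    exact ⟨0, a, Ne.symm ha, rfl⟩
  · intro a ha b hb hab
    by_contra hne
    exact hc' 0 a b (Ne.symm ha) (Ne.symm hb) hne hab

/-- For every `k ≥ 3` the complete graph with `n = 2^k` vertices has an optimal edge colouring
without a rainbow cycle of length `n - 2`. -/
theorem result (k : ℕ) (hk : 3 ≤ k) :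
    ∃ (V : Type) (_ : Fintype V) (K : Type) (c : Sym2 V → K), Fintype.card V = 2 ^ k ∧
      IsOptimal c ∧ ¬ HasRainbowCycle c (Fintype.card V - 2) := by
  refine ⟨Fin k → ZMod 2, inferInstance, _, col k, card_space k, col_optimal k, ?_⟩
  rw [card_space]
  exact no_cycle (by omega)

end Pool.Agent.Results.MP_4bc86c_co.BinaryColouring
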